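import Pool.Agent.Q5.MS.Gen
import Pool.Agent.TH942.ES.NF

/-!
# The original product of Birch and Swinnerton-Dyer over number fields, in logarithmic mean

Let `K` be a number field, `E : y² = x³ + a x + b` an elliptic curve with `a, b ∈ 𝓞_K`, and
`P(y) = ∏_{Nv ≤ y} #E(k_v)/Nv`, the product over the primes `v ∤ 6Δ`: the original product of Birch and
Swinnerton-Dyer with the sharp cut-off. Assume that the `L`-series of `E/K` has a continuation `F` to a half plane
`Re s > 1 - η`, analytic except perhaps for a pole at `s = 1`, of polynomial growth (for automorphic `L`-series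
this is known; the finitely many Euler factors left out have neither zeros nor poles for `Re s ≥ 1`). Then
for every real `ρ` the following are EQUIVALENT:

* `ord_{s=1} F = ρ`, and `F` has no zeros with `Re s > 1` (the Riemann hypothesis for `E/K`);
* `∫_e^Y |log P(y) - ρ log log y| dy/y ≤ B log Y` for some `B` and all large `Y`;
* `∫_e^∞ (log (A P*(y) / (e^γ log y)^ρ))² dy/y < ∞` for some `A > 0`, where
  `P*(y) = exp (- ∑_{Nv^k ≤ y} (α_v^k + β_v^k)/(k Nv^k))` is the product with the prime powers.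

With `ρ` the rank of `E(K)`: the rank form of the conjecture together with the Riemann hypothesis for `E/K` is the
statement that `log P(y) - rk E(K) log log y` is bounded in logarithmic mean. For `K = ℚ` Goldfeld (1982)
deduced the rank form from the much stronger pointwise asymptotic `P(y) ∼ C (log y)^r`; the converse is open
there (Kuo and Murty, Conrad 2005: the pointwise asymptotic is equivalent to something stronger than the Riemann
hypothesis). Here the statement is an equivalence, over all number fields. For `K = ℚ` this is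
`MeanSquareLaw` of problem `MP_3283e1_nt` (helper270).

The proof is for arbitrary Euler products over a system of primes (`Pool.Agent.Q5.MS`), based on
`Pool.Agent.TH270.MS` (Plancherel's theorem for `log L(1 + s)/s` up to the central line, helper270) and on the
local theory of `Pool.Agent.TH942.ES` (helper942). New are the number field, the pole, and the passage from the prime
powers to the original product, by a bound of Mertens type for `∑_{√y < Nv ≤ y} 1/Nv`.
-/

set_option autoImplicit false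

namespace Pool.Agent.Results.MP_ae0bd0_nt.MeanProduct

open Filter Topology Set Complex NumberField IsDedekindDomain MeasureTheory

variable {K : Type} [Field K] [NumberField K]

/-- The prime `v` does not divide `6 (4 a³ + 27 b²)`. -/
def Good (a b : 𝓞 K) (v : HeightOneSpectrum (𝓞 K)) : Prop :=
  6 * (4 * a ^ 3 + 27 * b ^ 2) ∉ v.asIdeal

/-- `Nv` -/
noncomputable def norm (v : HeightOneSpectrum (𝓞 K)) : ℕ := Ideal.absNorm v.asIdeal

/-- The number of affine points of `y² = x³ + a x + b` modulo `v`. -/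
noncomputable def points (a b : 𝓞 K) (v : HeightOneSpectrum (𝓞 K)) : ℕ :=
  Nat.card {P : (𝓞 K ⧸ v.asIdeal) × (𝓞 K ⧸ v.asIdeal) //
    P.2 ^ 2 = P.1 ^ 3 + Ideal.Quotient.mk v.asIdeal a * P.1 + Ideal.Quotient.mk v.asIdeal b}

/-- `a_v = Nv + 1 - #E(k_v)` -/
noncomputable def trace (a b : 𝓞 K) (v : HeightOneSpectrum (𝓞 K)) : ℤ := (norm v : ℤ) - points a b v

/-- The Euler factor `(1 - a_v Nv^(-s) + Nv^(1-2s))⁻¹`. -/
noncomputable def factor (a b : 𝓞 K) (v : HeightOneSpectrum (𝓞 K)) (s : ℂ) : ℂ :=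
  (1 - (trace a b v : ℂ) * (norm v : ℂ) ^ (-s) + (norm v : ℂ) ^ (1 - 2 * s))⁻¹

/-- The good primes with `Nv ≤ y`. -/
def upTo (a b : 𝓞 K) (y : ℝ) : Set (HeightOneSpectrum (𝓞 K)) := {v | Good a b v ∧ (norm v : ℝ) ≤ y}

/-- `P(y) = ∏_{Nv ≤ y} #E(k_v)/Nv`, `#E(k_v) = points + 1`, the (finite) product over the good primes `v` with
`Nv ≤ y`. -/
noncomputable def product (a b : 𝓞 K) (y : ℝ) : ℝ :=
  ∏ᶠ v ∈ upTo a b y, ((points a b v : ℝ) + 1) / norm v

/-- `α^n + β^n` for the roots `α`, `β` of `X² - t X + q`. -/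
def powerSum (t q : ℤ) : ℕ → ℤ
  | 0 => 2
  | 1 => t
  | n + 2 => t * powerSum t q (n + 1) - q * powerSum t q n

/-- `P*(y) = exp (- ∑_{Nv^k ≤ y} (α_v^k + β_v^k)/(k Nv^k))`, the (finite) sum over the pairs `(v, k)`,
`v` a good prime, `k = p.2 + 1 ≥ 1`, with `Nv^k ≤ y`. -/
noncomputable def productStar (a b : 𝓞 K) (y : ℝ) : ℝ :=
  Real.exp (-∑ᶠ (p : {v : HeightOneSpectrum (𝓞 K) // Good a b v} × ℕ)
    (_ : (norm p.1.1 : ℝ) ^ (p.2 + 1) ≤ y),
      (powerSum (trace a b p.1.1) (norm p.1.1) (p.2 + 1) : ℝ) /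
        (((p.2 : ℝ) + 1) * (norm p.1.1 : ℝ) ^ (p.2 + 1)))

/-- `F` is a continuation of the `L`-series `∏_v factor v` (`Re s > 3/2`) to a half plane `Re s > 1 - η`: for
some `k` the function `(s - 1)^k F(s)` is analytic and of polynomial growth there. -/
def Tempered (a b : 𝓞 K) (F : ℂ → ℂ) : Prop :=
  (∃ (η C : ℝ) (k κ : ℕ) (G : ℂ → ℂ), 0 < η ∧
    (∀ s : ℂ, 1 - η < s.re → DifferentiableAt ℂ G s ∧ ‖G s‖ ≤ C * (1 + ‖s‖) ^ κ) ∧
    ∀ s : ℂ, 1 - η < s.re → s ≠ 1 → G s = (s - 1) ^ k * F s) ∧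
  ∀ s : ℂ, (3 : ℝ) / 2 < s.re →
    HasProd (fun v : {v : HeightOneSpectrum (𝓞 K) // Good a b v} => factor a b v.1 s) (F s)

/-- `ord_{s=1} F = ρ`, and `F` has no zeros with `Re s > 1`. -/
def OrderRH (F : ℂ → ℂ) (ρ : ℝ) : Prop :=
  (∃ m : ℤ, ρ = m ∧ meromorphicOrderAt F 1 = m) ∧ ∀ s : ℂ, 1 < s.re → F s ≠ 0

open scoped Classical in
/-- The rank of the group of the `K`-rational points of `y² = x³ + a x + b`. -/
noncomputable def rank (a b : 𝓞 K) : ℕ :=
  Module.finrank ℤ
    (WeierstrassCurve.Affine.Point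
      (WeierstrassCurve.toAffine
        ({ a₁ := 0, a₂ := 0, a₃ := 0, a₄ := (a : K), a₆ := (b : K) } : WeierstrassCurve K)))

/-! ### translation -/

open Pool.Agent.TH942.ES (GoodV alV curve_sys curve_factor curve_cv zv xv cv cP efV rt trV rt_prod trV_abs Sys)
open Pool.Agent.H921R2.TatePole (nm two_le_nm)
open Pool.Agent.TH270.MS (Pl Mc DvR)
open Pool.Agent.Q5.MS (Pv)

/-- the norms -/
noncomputable abbrev NN (a b : 𝓞 K) : {v : HeightOneSpectrum (𝓞 K) // GoodV a b v} → ℕ :=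
  fun v => nm v.1

theorem factor_eq (a b : 𝓞 K) (v : {v : HeightOneSpectrum (𝓞 K) // GoodV a b v}) (s : ℂ) :
    factor a b v.1 s = ∏ i, (1 - zv (NN a b) (alV a b) v i * xv (NN a b) v (s - 1))⁻¹ := by
  have h := curve_factor (a := a) (b := b) v (s - 1)
  rw [add_sub_cancel] at h
  refine Eq.trans ?_ h.symm
  unfold factor efV trace
  push_cast
  rfl

/-- the power sums of the local roots -/
theorem zv_sum (a b : 𝓞 K) (v : {v : HeightOneSpectrum (𝓞 K) // GoodV a b v}) (n : ℕ) :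
    ∑ i, zv (NN a b) (alV a b) v i ^ n =
      (((powerSum (trace a b v.1) (norm v.1) n : ℝ) / (norm v.1 : ℝ) ^ n : ℝ) : ℂ) := by
  have hp2 : (2 : ℝ) ≤ nm v.1 := by exact_mod_cast two_le_nm v.1
  have hq0 : (0 : ℝ) < nm v.1 := by linarith
  have hs : 0 < √(nm v.1 : ℝ) := Real.sqrt_pos.2 hq0
  have hs2 : √(nm v.1 : ℝ) ^ 2 = nm v.1 := Real.sq_sqrt hq0.le
  have hsc : ((√(nm v.1 : ℝ) : ℝ) : ℂ) ≠ 0 := by exact_mod_cast hs.ne'
  have hqc : (nm v.1 : ℂ) ≠ 0 := by exact_mod_cast hq0.ne'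
  have hs2c : ((√(nm v.1 : ℝ) : ℝ) : ℂ) ^ 2 = nm v.1 := by
    exact_mod_cast congrArg (fun x : ℝ => (x : ℂ)) hs2
  set z₀ : ℂ := zv (NN a b) (alV a b) v 0 with hz0
  set z₁ : ℂ := zv (NN a b) (alV a b) v 1 with hz1
  have e0 : z₀ = rt (trV a b v.1) 0 / ((√(nm v.1 : ℝ) : ℝ) : ℂ) := rfl
  have e1 : z₁ = rt (trV a b v.1) 1 / ((√(nm v.1 : ℝ) : ℝ) : ℂ) := rfl
  -- the sum and the product of the roots
  have hprod1 := rt_prod (trV_abs v.2) 1
  have hprod2 := rt_prod (trV_abs v.2) (-1)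
  have hP : rt (trV a b v.1) 0 * rt (trV a b v.1) 1 = 1 := by
    linear_combination (1 / 2 : ℂ) * hprod1 + (1 / 2 : ℂ) * hprod2
  have hS : rt (trV a b v.1) 0 + rt (trV a b v.1) 1 = 2 * trV a b v.1 := by
    linear_combination (-1 / 2 : ℂ) * hprod1 + (1 / 2 : ℂ) * hprod2
  have hsum : z₀ + z₁ = (trace a b v.1 : ℂ) / nm v.1 := by
    rw [e0, e1, ← add_div, hS]
    unfold trV trace
    have e3 : (norm v.1 : ℤ) = (nm v.1 : ℤ) := rfl
    have e4 : points a b v.1 = Pool.Agent.TH942.ES.ptsV a b v.1 := rfl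
    rw [e3, e4, ← hs2c]
    push_cast
    rw [hs2c]
    field_simp
    rw [hs2c]
    ring
  have hmul : z₀ * z₁ = 1 / (nm v.1 : ℂ) := by
    rw [e0, e1, div_mul_div_comm, hP, ← hs2c]
    ring
  have key : ∀ n : ℕ, z₀ ^ n + z₁ ^ n =
      (powerSum (trace a b v.1) (norm v.1) n : ℂ) / (nm v.1 : ℂ) ^ n := by
    intro n
    induction n using Nat.twoStepInduction with
    | zero =>
      simp only [pow_zero, powerSum]
      norm_num
    | one =>
      simp only [pow_one, powerSum]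
      exact hsum
    | more n ih1 ih2 =>
      have h1 : z₀ ^ (n + 2) + z₁ ^ (n + 2) = (z₀ + z₁) * (z₀ ^ (n + 1) + z₁ ^ (n + 1)) -
          z₀ * z₁ * (z₀ ^ n + z₁ ^ n) := by ring
      rw [h1, ih1, ih2, hsum, hmul]
      have e3 : (((norm v.1 : ℕ) : ℤ) : ℂ) = (nm v.1 : ℂ) := by
        rw [Int.cast_natCast]
        rfl
      simp only [powerSum]
      push_cast
      have e5 : ((norm v.1 : ℕ) : ℂ) = (nm v.1 : ℂ) := rfl
      rw [e5]
      field_simp
      ring
  have h2 := key n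
  rw [Fin.sum_univ_two]
  refine h2.trans ?_
  push_cast
  rfl

theorem real_sums (a b : 𝓞 K) (v : {v : HeightOneSpectrum (𝓞 K) // GoodV a b v}) (k : ℕ) :
    (∑ i, zv (NN a b) (alV a b) v i ^ k).im = 0 := by
  rw [zv_sum, Complex.ofReal_im]

theorem cP_eq (a b : 𝓞 K) (p : {v : HeightOneSpectrum (𝓞 K) // GoodV a b v} × ℕ) :
    cP (NN a b) (alV a b) p = (powerSum (trace a b p.1.1) (norm p.1.1) (p.2 + 1) : ℝ) /
        (((p.2 : ℝ) + 1) * (norm p.1.1 : ℝ) ^ (p.2 + 1)) := by
  unfold cP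
  rw [zv_sum, Complex.ofReal_re]
  rw [div_div, mul_comm]

theorem log_star (a b : 𝓞 K) (y : ℝ) :
    Real.log (productStar a b y) = -Pl (NN a b) (alV a b) y := by
  unfold productStar Pl
  rw [Real.log_exp]
  congr 1
  refine finsum_congr fun p => finsum_congr fun _ => ?_
  exact (cP_eq a b p).symm

theorem star_pos (a b : 𝓞 K) (y : ℝ) : 0 < productStar a b y := Real.exp_pos _

theorem log_product (a b : 𝓞 K) (y : ℝ) :
    Real.log (product a b y) = Pv (NN a b) (alV a b) y := by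
  classical
  have E := curve_sys a b
  have hfin : (upTo a b y).Finite := by
    have h1 := (E.fin_le y).image Subtype.val
    refine h1.subset fun v hv => ?_
    exact ⟨⟨v, hv.1⟩, hv.2, rfl⟩
  have h2 : product a b y = ∏ v ∈ hfin.toFinset, ((points a b v : ℝ) + 1) / norm v :=
    finprod_mem_eq_finite_toFinset_prod _ hfin
  rw [h2, Real.log_prod]
  · rw [Pool.Agent.Q5.MS.pv_eq E]
    refine Finset.sum_bij' (i := fun v hv => ⟨v, ((Set.Finite.mem_toFinset _).1 hv).1⟩)
      (j := fun v _ => v.1) ?_ ?_ ?_ ?_ ?_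
    · intro v hv
      rw [Set.Finite.mem_toFinset] at hv ⊢
      exact hv.2
    · intro v hv
      rw [Set.Finite.mem_toFinset] at hv ⊢
      exact ⟨v.2, hv⟩
    · intro v hv
      rfl
    · intro v hv
      rfl
    · intro v hv
      have h3 := curve_cv (a := a) (b := b) ⟨v, ((Set.Finite.mem_toFinset _).1 hv).1⟩
      exact h3.symm
  · intro v hv
    rw [Set.Finite.mem_toFinset] at hv
    have h3 : (2 : ℝ) ≤ norm v := by exact_mod_cast two_le_nm v
    positivity

/-- the data of the curve -/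
theorem data {a b : 𝓞 K} {F : ℂ → ℂ} (hF : Tempered a b F) :
    ∃ (G₀ : ℂ → ℂ) (k κ : ℕ) (η C : ℝ),
      Mc (NN a b) (alV a b) (fun s => F (1 + s)) G₀ k κ η C := by
  obtain ⟨⟨η, C, k, κ, G, hη, hG, hGF⟩, hL⟩ := hF
  refine ⟨fun s => G (1 + s), k, κ, η, |C| * 2 ^ κ, curve_sys a b, real_sums a b, hη,
    fun s hs => ?_, fun s hs => ?_, fun s hs hs0 => ?_, fun s hs => ?_⟩
  · have h1 := (hG (1 + s) (by rw [Complex.add_re, Complex.one_re]; linarith)).1
    exact DifferentiableAt.comp s (f := fun s : ℂ => 1 + s) h1 (by fun_prop)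
  · refine (hG (1 + s) (by rw [Complex.add_re, Complex.one_re]; linarith)).2.trans ?_
    have h1 : 1 + ‖1 + s‖ ≤ 2 * (1 + ‖s‖) := by
      have := norm_add_le (1 : ℂ) s
      rw [norm_one] at this
      linarith [norm_nonneg s]
    calc C * (1 + ‖1 + s‖) ^ κ ≤ |C| * (2 * (1 + ‖s‖)) ^ κ :=
          mul_le_mul (le_abs_self _) (pow_le_pow_left₀ (by positivity) h1 κ) (by positivity)
            (abs_nonneg _)
      _ = _ := by rw [mul_pow]; ring
  · have h1 := hGF (1 + s) (by rw [Complex.add_re, Complex.one_re]; linarith)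
      (by simpa using hs0)
    rwa [add_sub_cancel_left] at h1
  · have h1 := hL (1 + s) (by rw [Complex.add_re, Complex.one_re]; linarith)
    have h2 := (curve_sys a b).hasProd (s := s) hs
    have h3 : (fun v : {v : HeightOneSpectrum (𝓞 K) // Good a b v} => factor a b v.1 (1 + s)) =
        fun v => ∏ i, (1 - zv (NN a b) (alV a b) v i * xv (NN a b) v s)⁻¹ := by
      funext v
      have h4 := factor_eq a b v (1 + s)
      rwa [add_sub_cancel_left] at h4
    rw [h3] at h1
    exact h1.tprod_eq.symm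

theorem mero_shift (F : ℂ → ℂ) : meromorphicOrderAt (fun s => F (1 + s)) 0 = meromorphicOrderAt F 1 := by
  have h1 : AnalyticAt ℂ (fun s : ℂ => 1 + s) 0 := by fun_prop
  have h2 : deriv (fun s : ℂ => 1 + s) 0 ≠ 0 := by simp
  have h3 := meromorphicOrderAt_comp_of_deriv_ne_zero (f := F) h1 h2
  simp only [add_zero] at h3
  exact h3

theorem zeros_shift (F : ℂ → ℂ) :
    (∀ s : ℂ, 0 < s.re → F (1 + s) ≠ 0) ↔ ∀ s : ℂ, 1 < s.re → F s ≠ 0 := by
  refine ⟨fun h s hs => ?_, fun h s hs => h _ (by simpa using hs)⟩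
  have := h (s - 1) (by simpa using hs)
  rwa [add_sub_cancel] at this

theorem dev_eq (a b : 𝓞 K) {ρ A y : ℝ} (hA : 0 < A) (hy : Real.exp 1 ≤ y) :
    Real.log (A * productStar a b y / (Real.exp Real.eulerMascheroniConstant * Real.log y) ^ ρ) =
      -DvR (NN a b) (alV a b) ρ A y := by
  have hl : 0 < Real.log y := by linarith [Pool.Agent.TH270.MS.one_le_log hy]
  have h1 : 0 < Real.exp Real.eulerMascheroniConstant * Real.log y :=
    mul_pos (Real.exp_pos _) hl
  have h2 := Real.rpow_pos_of_pos h1 ρ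
  rw [Real.log_div (mul_pos hA (star_pos a b y)).ne' h2.ne', Real.log_mul hA.ne'
    (star_pos a b y).ne', log_star, Real.log_rpow h1, Real.log_mul (Real.exp_pos _).ne' hl.ne',
    Real.log_exp]
  unfold DvR
  ring

/-- **The original product of Birch and Swinnerton-Dyer over number fields in logarithmic mean.** -/
theorem result (a b : 𝓞 K) (_hΔ : 4 * a ^ 3 + 27 * b ^ 2 ≠ 0) (F : ℂ → ℂ) (hF : Tempered a b F) :
    (∀ ρ : ℝ, List.TFAE [
      OrderRH F ρ,
      ∃ B : ℝ, ∀ᶠ Y : ℝ in atTop,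
        ∫ y in Real.exp 1..Y, |Real.log (product a b y) - ρ * Real.log (Real.log y)| / y ≤
          B * Real.log Y,
      ∃ A : ℝ, 0 < A ∧ IntegrableOn (fun y : ℝ => Real.log (A * productStar a b y /
        (Real.exp Real.eulerMascheroniConstant * Real.log y) ^ ρ) ^ 2 / y) (Ioi (Real.exp 1))]) ∧
    ((meromorphicOrderAt F 1 = (rank a b : ℤ) ∧ ∀ s : ℂ, 1 < s.re → F s ≠ 0) ↔
      ∃ B : ℝ, ∀ᶠ Y : ℝ in atTop,
        ∫ y in Real.exp 1..Y, |Real.log (product a b y) - rank a b * Real.log (Real.log y)| / y ≤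
          B * Real.log Y) := by
  obtain ⟨G₀, k, κ, η, C, H⟩ := data hF
  have main : ∀ ρ : ℝ, List.TFAE [
      OrderRH F ρ,
      ∃ B : ℝ, ∀ᶠ Y : ℝ in atTop,
        ∫ y in Real.exp 1..Y, |Real.log (product a b y) - ρ * Real.log (Real.log y)| / y ≤
          B * Real.log Y,
      ∃ A : ℝ, 0 < A ∧ IntegrableOn (fun y : ℝ => Real.log (A * productStar a b y /
        (Real.exp Real.eulerMascheroniConstant * Real.log y) ^ ρ) ^ 2 / y) (Ioi (Real.exp 1))] := by
    intro ρ
    have t := Pool.Agent.Q5.MS.order_real H ρ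
    have h1 : OrderRH F ρ ↔ ((∀ s : ℂ, 0 < s.re → F (1 + s) ≠ 0) ∧
        ∃ m : ℤ, ρ = m ∧ meromorphicOrderAt (fun s => F (1 + s)) 0 = m) := by
      rw [mero_shift, zeros_shift]
      exact and_comm
    have h2 : ∀ A : ℝ, 0 < A → (IntegrableOn (fun y : ℝ => Real.log (A * productStar a b y /
        (Real.exp Real.eulerMascheroniConstant * Real.log y) ^ ρ) ^ 2 / y) (Ioi (Real.exp 1)) ↔
        IntegrableOn (fun Y : ℝ => DvR (NN a b) (alV a b) ρ A Y ^ 2 / Y) (Ioi (Real.exp 1))) := by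
      intro A hA
      refine integrableOn_congr_fun (fun y hy => ?_) measurableSet_Ioi
      rw [dev_eq a b hA (le_of_lt hy), neg_sq]
    simp only [log_product]
    tfae_have 1 ↔ 2 := by
      rw [h1]
      exact t.out 0 3
    tfae_have 1 ↔ 3 := by
      rw [h1]
      refine (t.out 0 1).trans (exists_congr fun A => and_congr_right fun hA => ?_)
      exact (h2 A hA).symm
    tfae_finish
  refine ⟨main, ?_⟩
  have h1 := (main (rank a b)).out 0 1
  rw [← h1]
  unfold OrderRH
  refine and_congr_left fun _ => ⟨fun h => ⟨rank a b, by push_cast; rfl, h⟩, ?_⟩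
  rintro ⟨m, hm, h⟩
  have h3 : ((rank a b : ℤ) : ℝ) = (m : ℝ) := by
    rw [← hm]
    push_cast
    rfl
  have h4 : (rank a b : ℤ) = m := by exact_mod_cast h3
  rw [h4]
  exact h

end Pool.Agent.Results.MP_ae0bd0_nt.MeanProduct
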