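import Pool.Agent.Q317.CC.Pos

/-!
# The rank conjecture in small analytic rank over fields whose complex conjugations commute

`k` is a totally real number field, `E` an elliptic curve over `k`, `N / k` a finite Galois extension
with group `G`, and `T ⊆ G` the set of the complex conjugations. The fixed field of a subgroup `H'`
is totally real if and only if `T ⊆ H'`. Let `a (H)` and `r (H)` be the analytic and the algebraic
rank of `E` over the fixed field of `H`. If `F` is the fixed field of `H' ⊇ T` and `F (√δ)` the fixed
field of a subgroup `H` of index `2` of `H'`, then `a (H) - a (H')` and `r (H) - r (H')` are the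
ranks of the quadratic twist `E_δ / F`.
-/

set_option autoImplicit false

namespace Pool.Agent.Results.MP_ae0bd0_nt.CommutingConjugationsSmallRank

open scoped Classical
open MulAction Pool.Agent.Q317.CC

attribute [local instance] Fintype.ofFinite

variable {G : Type} [Group G] [Finite G]

/-- `f` respects the relations between permutation characters: if `∑ n_i π_i = 0`, where `π_i (g)` is
the number `perm (H_i) g` of the fixed points of `g` on `G / H_i`, then `∑ n_i f (H_i) = 0`. -/
def Respects (f : Subgroup G → ℕ) : Prop :=
  ∀ (ι : Type) [Fintype ι] (n : ι → ℤ) (H : ι → Subgroup G),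
    (∀ g : G, ∑ i, n i * (perm (H i) g : ℤ) = 0) → ∑ i, n i * (f (H i) : ℤ) = 0

/-- `H` has index `2` in `H' ⊇ T` -/
def Quadratic (T : Set G) (H H' : Subgroup G) : Prop := H ≤ H' ∧ T ⊆ H' ∧ H.relIndex H' = 2

theorem core (V : Subgroup G) [hV : V.Normal] (hc : ∀ v ∈ V, v * v = 1) (U : Subgroup G)
    (X : Type) [MulAction G X] [Finite X]
    (hX : ∀ g, perm U g = Nat.card {x : X // g • x = x}) :
    ∃ (ι : Type) (_ : Fintype ι) (S : ι → Prop) (H H' : ι → Subgroup G),
      (∀ i, S i → (V : Set G) ⊆ H' i) ∧ (∀ i, ¬ S i → Quadratic (V : Set G) (H i) (H' i)) ∧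
      ∀ f : Subgroup G → ℕ, Respects f → (f U : ℤ) =
        ∑ i, if S i then (f (H' i) : ℤ) else (f (H i) : ℤ) - f (H' i) := by
  let OP := orbitRel.Quotient G (P V X)
  have hVP : ∀ e : Z V X, V ≤ stabilizer G (sq V e) := by
    intro e v hv
    rw [mem_stabilizer_iff, sq_smul, sq_eq]
    obtain ⟨x₀, -, -, h2⟩ := id e.2
    have hv' : v⁻¹ ∈ V := inv_mem hv
    rcases h2 ⟨v⁻¹, hv'⟩ with h | h
    · left
      apply Subtype.ext
      funext x
      exact h x
    · right
      funext x
      exact h x
  refine ⟨OP, inferInstance, fun ω => stabilizer G (lift V (Quotient.out ω : P V X)) =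
    stabilizer G (Quotient.out ω : P V X), fun ω => stabilizer G (lift V (Quotient.out ω : P V X)),
    fun ω => stabilizer G (Quotient.out ω : P V X), ?_, ?_, ?_⟩
  · intro ω _
    have h1 := hVP (lift V (Quotient.out ω : P V X))
    rw [sq_lift] at h1
    exact h1
  · intro ω hS
    have h1 := hVP (lift V (Quotient.out ω : P V X))
    rw [sq_lift] at h1
    have hle : stabilizer G (lift V (Quotient.out ω : P V X)) ≤
        stabilizer G (Quotient.out ω : P V X) := by
      intro g hg
      rw [mem_stabilizer_iff] at hg ⊢
      rw [← sq_lift V (Quotient.out ω : P V X), sq_smul, hg]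
    refine ⟨hle, h1, ?_⟩
    have hle2 : (stabilizer G (lift V (Quotient.out ω : P V X))).relIndex
        (stabilizer G (Quotient.out ω : P V X)) ≤ 2 := by
      set e := lift V (Quotient.out ω : P V X) with he
      rw [← sq_lift V (Quotient.out ω : P V X), ← he]
      have h3 : (stabilizer G e).subgroupOf (stabilizer G (sq V e)) =
          stabilizer (stabilizer G (sq V e)) e := by
        ext g
        rfl
      unfold Subgroup.relIndex
      rw [h3, index_stabilizer]
      have h2 : orbit (stabilizer G (sq V e)) e ⊆ {e, ngz V e} := by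
        rintro _ ⟨g, rfl⟩
        have hg := g.2
        rw [mem_stabilizer_iff, sq_smul] at hg
        exact sq_eq' V hg
      refine (Set.ncard_le_ncard h2 (Set.toFinite _)).trans ?_
      exact (Set.ncard_insert_le _ _).trans (by rw [Set.ncard_singleton])
    have h0 : (stabilizer G (lift V (Quotient.out ω : P V X))).relIndex
        (stabilizer G (Quotient.out ω : P V X)) ≠ 0 := Subgroup.index_ne_zero_of_finite
    have h1' : (stabilizer G (lift V (Quotient.out ω : P V X))).relIndex
        (stabilizer G (Quotient.out ω : P V X)) ≠ 1 := by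
      intro h
      rw [Subgroup.relIndex_eq_one] at h
      exact hS (le_antisymm hle h)
    change (stabilizer G (lift V (Quotient.out ω : P V X))).relIndex
        (stabilizer G (Quotient.out ω : P V X)) = 2
    omega
  · intro f hf
    have hrel := hf (Option (OP ⊕ OP))
      (fun o => o.elim (-1) (Sum.elim
        (fun ω => if stabilizer G (lift V (Quotient.out ω : P V X)) =
          stabilizer G (Quotient.out ω : P V X) then 0 else 1)
        (fun ω => if stabilizer G (lift V (Quotient.out ω : P V X)) =
          stabilizer G (Quotient.out ω : P V X) then 1 else -1)))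
      (fun o => o.elim U (Sum.elim (fun ω => stabilizer G (lift V (Quotient.out ω : P V X)))
        (fun ω => stabilizer G (Quotient.out ω : P V X)))) (by
        intro g
        rw [Fintype.sum_option, Fintype.sum_sum_type]
        simp only [Option.elim_none, Option.elim_some, Sum.elim_inl, Sum.elim_inr]
        rw [← Finset.sum_add_distrib, hX, decomposition V hc (X := X) g, neg_one_mul,
          ← Finset.sum_neg_distrib, ← Finset.sum_add_distrib]
        refine Finset.sum_eq_zero fun ω _ => ?_
        split_ifs <;> ring)
    rw [Fintype.sum_option, Fintype.sum_sum_type] at hrel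
    simp only [Option.elim_none, Option.elim_some, Sum.elim_inl, Sum.elim_inr] at hrel
    rw [← Finset.sum_add_distrib, neg_one_mul, neg_add_eq_zero] at hrel
    rw [hrel]
    refine Finset.sum_congr rfl fun ω _ => ?_
    split_ifs <;> ring

/-- **Theorem.** If the elements of `T` commute, and `r = a` is known for the subgroups `H' ⊇ T` with
`a (H') ≤ m` and for the differences in the quadratic extensions with difference at most `m`, then
`r (U) = a (U)` for all subgroups `U` of `G` with `a (U) ≤ m`. -/
theorem result (G : Type) [Group G] [Finite G] (T : Set G) (hT : ∀ t ∈ T, t * t = 1)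
    (hconj : ∀ t ∈ T, ∀ g, g * t * g⁻¹ ∈ T) (hcomm : ∀ t ∈ T, ∀ t' ∈ T, t * t' = t' * t)
    (a r : Subgroup G → ℕ) (ha : Respects a) (hr : Respects r)
    (hol : ∀ H H', Quadratic T H H' → a H' ≤ a H) (m : ℕ)
    (known : ∀ H' : Subgroup G, T ⊆ H' → a H' ≤ m → r H' = a H')
    (known_twist : ∀ H H', Quadratic T H H' → a H ≤ a H' + m →
      (r H : ℤ) - r H' = (a H : ℤ) - a H') :
    ∀ U : Subgroup G, a U ≤ m → r U = a U := by
  intro U hU
  have hV : (Subgroup.closure T).Normal := ⟨fun v hv g => by
    induction hv using Subgroup.closure_induction with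
    | mem t ht => exact Subgroup.subset_closure (hconj t ht g)
    | one =>
      rw [mul_one, mul_inv_cancel]
      exact one_mem _
    | mul x y _ _ ha hb =>
      have h1 : g * (x * y) * g⁻¹ = (g * x * g⁻¹) * (g * y * g⁻¹) := by group
      rw [h1]
      exact mul_mem ha hb
    | inv x _ ha =>
      have h1 : g * x⁻¹ * g⁻¹ = (g * x * g⁻¹)⁻¹ := by group
      rw [h1]
      exact inv_mem ha⟩
  have hcm : ∀ x ∈ Subgroup.closure T, ∀ y ∈ Subgroup.closure T, x * y = y * x := by
    intro x hx y hy
    have h1 := (Subgroup.closureCommGroupOfComm hcomm).mul_comm ⟨x, hx⟩ ⟨y, hy⟩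
    exact congrArg Subtype.val h1
  have hc : ∀ v ∈ Subgroup.closure T, v * v = 1 := by
    intro v hv
    induction hv using Subgroup.closure_induction with
    | mem t ht => exact hT t ht
    | one => exact one_mul 1
    | mul x y hx hy ha hb =>
      have h1 : x * y * (x * y) = (x * x) * (y * y) := by
        rw [mul_assoc, ← mul_assoc y x y, ← hcm x hx y hy]
        group
      rw [h1, ha, hb, one_mul]
    | inv x _ ha => rw [← mul_inv_rev, ha, inv_one]
  obtain ⟨ι, _, S, H, H', h1, h2, h3⟩ := core (Subgroup.closure T) hc U (G ⧸ U) fun g => rfl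
  have hTV : T ⊆ (Subgroup.closure T : Set G) := Subgroup.subset_closure
  have h1' : ∀ i, S i → T ⊆ H' i := fun i hi => hTV.trans (h1 i hi)
  have h2' : ∀ i, ¬ S i → Quadratic T (H i) (H' i) := fun i hi =>
    ⟨(h2 i hi).1, hTV.trans (h2 i hi).2.1, (h2 i hi).2.2⟩
  have h4 : ∀ i, 0 ≤ (if S i then (a (H' i) : ℤ) else (a (H i) : ℤ) - a (H' i)) := by
    intro i
    by_cases hi : S i
    · rw [if_pos hi]
      positivity
    · rw [if_neg hi]
      have := hol _ _ (h2' i hi)
      omega
  have h5 : ∀ i, (if S i then (a (H' i) : ℤ) else (a (H i) : ℤ) - a (H' i)) ≤ m := by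
    intro i
    have h6 := Finset.single_le_sum (fun j _ => h4 j) (Finset.mem_univ i)
    rw [← h3 a ha] at h6
    refine h6.trans ?_
    exact_mod_cast hU
  have h7 : (r U : ℤ) = a U := by
    rw [h3 a ha, h3 r hr]
    refine Finset.sum_congr rfl fun i _ => ?_
    have h8 := h5 i
    by_cases hi : S i
    · rw [if_pos hi] at h8 ⊢
      rw [if_pos hi, known _ (h1' i hi) (by exact_mod_cast h8)]
    · rw [if_neg hi] at h8 ⊢
      rw [if_neg hi]
      exact known_twist _ _ (h2' i hi) (by omega)
  exact_mod_cast h7

end Pool.Agent.Results.MP_ae0bd0_nt.CommutingConjugationsSmallRank
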