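import Pool.Agent.Q6.NW.TwF

/-!
# Infinite abelian towers over an abelian field in which several newforms have analytic rank zero

`f_1, …, f_m` are newforms of weight two and levels `N_1, …, N_m` with trivial character, with arbitrary
(real algebraic) Fourier coefficients.  `G` is a finite group of Dirichlet characters of squarefree
conductors prime to the `N_i`, and `K` the abelian number field attached to it (any abelian number field
which is tamely ramified and in which the primes dividing the `N_i` are unramified).  We assume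
`L(f_i/K, 1) ≠ 0`, that is `L(f_i ⊗ ψ, 1) ≠ 0` for all `ψ ∈ G` and all `i`; for `G = 1` and `K = ℚ` this
is `L(f_i, 1) ≠ 0`.  `l` is a prime and `λ` a prime ideal of the ring of all algebraic integers, `l ∈ λ`.
A prime `q` is admissible if `q` does not divide the `N_i` and the conductor of `K`, and
`a_q(f_i) - ψ(q) - ψ(q)⁻¹ ∉ λ` for all `i` and all `ψ ∈ G`.

Theorem: let `H` be an infinite group of Dirichlet characters of order dividing `l ^ n` and of squarefree
conductors composed of admissible primes.  Then `H` has an infinite subgroup `H'` such that for all number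
fields `F` contained in the compositum of `K` and of the infinite abelian extension of `ℚ` attached to
`H'`, and for all `i`, the `L`-function `L(f_i/F, s)` (the Euler product of `f_i` over all the finite
places of `F`) is entire and does not vanish at `s = 1`.

The conclusion for the Birch and Swinnerton-Dyer conjecture over number fields: let `E` be an elliptic curve
over a number field `M` whose restriction of scalars to `ℚ` is isogenous to a product of abelian varieties
attached to newforms, for instance an elliptic curve over `ℚ` or a `ℚ`-curve completely defined over an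
abelian field `M`, and let the `f_i` be all these newforms and their conjugates.  Then
`L(E/M, s) = ∏ L(f_i, s)`, and for the fields `F` above `L(E/MF, s) = ∏ L(f_i/F, s)` does not vanish at
`s = 1`, and `E(MF)` is finite by Kato's theorem: the rank conjecture holds for `E` over the infinitely many
number fields `MF`.  For elliptic curves over `ℚ` it says: if `E` has analytic rank zero over `K` then it
has analytic rank zero over infinite abelian extensions of `K`.  The case `K = ℚ` and rational coefficients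
is `Pool.Agent.Results.MP_6dc9d1_nt.InfiniteAbelianTowers`.

The proof: the sums of the modular symbols of the twists by `ψ χ`, multiplied by units modulo a prime ideal
`P ∣ l` of a ring `R` which is finite over `ℤ`, are the values of a combination of characters of `H`
with coefficients in a finite `R`-module `W` (`Pool.Agent.Q6.NW.goodT`), and so are the products of these
sums over the elements of a coset `c ^ j B`, `B` a finite subgroup.  Iterated differences of such a
function are divisible by powers of `P`.  By Krull's intersection theorem the value at the origin is not in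
`P ^ (V + 1) W` for some `V`, and this implies that the function is not zero on every translate of a set of
`2 ^ V` elements.  So a finite subgroup without zeros can always be enlarged inside `H`.
-/

set_option autoImplicit false

open Complex UpperHalfPlane MatrixGroups CongruenceSubgroup NumberField IsDedekindDomain

namespace Pool.Agent.Results.MP_ae0bd0_nt.NewformTowers

/-- The `n`-th Fourier coefficient of `f`. -/
noncomputable def coef {N : ℕ} (f : CuspForm (Gamma0 N : Subgroup (GL (Fin 2) ℝ)) 2) (n : ℕ) : ℂ :=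
  (qExpansion 1 f).coeff n

/-- `f ∈ S_2(Γ₀(N))` is a newform, with its standard properties: the Fourier coefficients `c(n)` of `f`
are real with `c(1) = 1`, they satisfy the Hecke relations `c(mn) = c(m) c(n)` for coprime `m`, `n` and
`c(p^(j+2)) = c(p) c(p^(j+1)) - p c(p^j)` (without the last term if `p ∣ N`) and the bounds
`|c(p)| ≤ 2√p` for `p ∤ N`, `|c(p)| ≤ 1` for `p ∣ N`; `f` is an eigenfunction of the Fricke
involution: `f(-1/(Nτ)) = -w N τ² f(τ)` with `w = ±1`. -/
structure IsNewform (N : ℕ) (f : CuspForm (Gamma0 N : Subgroup (GL (Fin 2) ℝ)) 2) : Prop where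
  one : coef f 1 = 1
  real : ∀ n, (coef f n).im = 0
  mul : ∀ m n : ℕ, Nat.Coprime m n → coef f (m * n) = coef f m * coef f n
  pow : ∀ p j : ℕ, p.Prime → coef f (p ^ (j + 2)) = coef f p * coef f (p ^ (j + 1)) -
      (if p ∣ N then 0 else (p : ℂ) * coef f (p ^ j))
  good : ∀ p : ℕ, p.Prime → ¬ p ∣ N → ‖coef f p‖ ≤ 2 * Real.sqrt p
  bad : ∀ p : ℕ, p.Prime → p ∣ N → ‖coef f p‖ ≤ 1
  fricke : ∃ w : ℝ, (w = 1 ∨ w = -1) ∧ ∀ τ τ' : ℍ, (τ' : ℂ) * ((N : ℂ) * (τ : ℂ)) = -1 →
    f τ' = -(w : ℂ) * (N : ℂ) * (τ : ℂ) ^ 2 * f τ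

/-- The families `c = (c_q)` of characters `c_q` of the groups `(ℤ/q)ˣ`.  The family with `c_q = 1`
except for the primes `q` of a finite set stands for the Dirichlet character `χ_c = ∏ c_q` of
squarefree conductor; this is an isomorphism of groups. -/
abbrev Fam : Type := (q : ℕ) → (ZMod q)ˣ →* ℂˣ

open Classical in
/-- The set of the `q` with `c_q ≠ 1` (if it is finite). -/
noncomputable def supp (c : Fam) : Finset ℕ :=
  if h : {q | c q ≠ 1}.Finite then h.toFinset else ∅

/-- The value `χ_c(m)`. -/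
noncomputable def value (c : Fam) (m : ℕ) : ℂ :=
  ∏ q ∈ supp c, if h : m.Coprime q then (c q (ZMod.unitOfCoprime m h) : ℂ) else 0

/-- `L(f ⊗ χ_c, 1) ≠ 0`: there is an entire function `G` which for `Re s > 3/2` is the product over the
primes `p` of `(1 - χ(p) c(p) p^(-s) + χ(p)² p^(1-2s))⁻¹` (without the last term if `p ∣ N`),
`χ = χ_c`, and `G(1) ≠ 0`. -/
def TwistNonvanishing {N : ℕ} (f : CuspForm (Gamma0 N : Subgroup (GL (Fin 2) ℝ)) 2) (c : Fam) :
    Prop :=
  ∃ G : ℂ → ℂ, Differentiable ℂ G ∧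
    (∀ s : ℂ, (3 : ℝ) / 2 < s.re → HasProd (fun p : Nat.Primes =>
      (1 - value c p * coef f p * ((p : ℕ) : ℂ) ^ (-s) +
        value c p ^ 2 * (if (p : ℕ) ∣ N then 0 else ((p : ℕ) : ℂ) ^ (1 - 2 * s)))⁻¹) (G s)) ∧
    G 1 ≠ 0

/-- The conductor of `χ_c`. -/
noncomputable def conductor (c : Fam) : ℕ := ∏ q ∈ supp c, q

open Classical in
/-- The Gaussian period `∑ exp(2 π i u / M)`, `0 ≤ u < M`, `χ_c(u) = 1`, where `M` is the conductor of
`χ_c`.  It generates the cyclic extension of `ℚ` attached to `χ_c` (the subfield of `ℚ(exp(2 π i / M))`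
fixed by the kernel of `χ_c`; recall that `M` is squarefree). -/
noncomputable def period (c : Fam) : ℂ :=
  ∑ u ∈ (Finset.range (conductor c)).filter (fun u => value c u = 1),
    Complex.exp (2 * Real.pi * Complex.I / (conductor c : ℕ)) ^ u

/-- `G` is a finite group of Dirichlet characters of squarefree conductors prime to the levels `N_i`. -/
structure IsBase {m : ℕ} (N : Fin m → ℕ) (G : Subgroup Fam) : Prop where
  finite : (G : Set Fam).Finite
  supp_finite : ∀ c ∈ G, {q | c q ≠ 1}.Finite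
  good : ∀ c ∈ G, ∀ q, c q ≠ 1 → q.Prime ∧ ∀ i, ¬ q ∣ N i

/-- `q` is a prime which does not divide the levels `N_i` and the conductors of the characters `ψ ∈ G`,
and `c_i(q) - ψ(q) - ψ(q)⁻¹` is not in the prime ideal `lam` of the ring of all algebraic integers,
for all `i` and all `ψ ∈ G`. -/
def Admissible {m : ℕ} {N : Fin m → ℕ}
    (f : (i : Fin m) → CuspForm (Gamma0 (N i) : Subgroup (GL (Fin 2) ℝ)) 2) (G : Subgroup Fam)
    (lam : Ideal (integralClosure ℤ ℂ)) (q : ℕ) : Prop :=
  q.Prime ∧ ∀ i, ¬ q ∣ N i ∧ ∀ ψ ∈ G, ψ q = 1 ∧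
    ∀ x ∈ lam, (x : ℂ) ≠ coef (f i) q - value ψ q - (value ψ q)⁻¹

/-- `H` is a group of Dirichlet characters of order dividing `l ^ n` and of squarefree conductors
composed of admissible primes. -/
structure IsCharGroup {m : ℕ} {N : Fin m → ℕ}
    (f : (i : Fin m) → CuspForm (Gamma0 (N i) : Subgroup (GL (Fin 2) ℝ)) 2) (G : Subgroup Fam)
    (lam : Ideal (integralClosure ℤ ℂ)) (l n : ℕ) (H : Subgroup Fam) : Prop where
  pow : ∀ c ∈ H, c ^ (l ^ n) = 1
  finite : ∀ c ∈ H, {q | c q ≠ 1}.Finite
  admissible : ∀ c ∈ H, ∀ q, c q ≠ 1 → Admissible f G lam q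

/-- `pw t u n = α ^ n + β ^ n`, where `α`, `β` are the roots of `X² - t X + u`. -/
noncomputable def pw (t u : ℂ) : ℕ → ℂ
  | 0 => 2
  | 1 => t
  | n + 2 => t * pw t u (n + 1) - u * pw t u n

open Classical in
/-- The Euler factor of `L(f/F, s)` at the finite place `v` of the number field `F`.  If `Nv = p ^ d` with
`p` prime, it is `(1 - (α^d + β^d) (Nv)^(-s) + (Nv)^(1-2s))⁻¹` for `p ∤ N`, where `α`, `β` are the
roots of `X² - c(p) X + p`, and `(1 - c(p)^d (Nv)^(-s))⁻¹` for `p ∣ N`.  (The primes `p ∣ N` will be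
unramified in `F`.) -/
noncomputable def factor {F : Type} [Field F] [NumberField F] {N : ℕ}
    (f : CuspForm (Gamma0 N : Subgroup (GL (Fin 2) ℝ)) 2) (s : ℂ) (v : HeightOneSpectrum (𝓞 F)) : ℂ :=
  (1 - pw (coef f (Ideal.absNorm v.asIdeal).minFac)
        (if (Ideal.absNorm v.asIdeal).minFac ∣ N then 0 else ((Ideal.absNorm v.asIdeal).minFac : ℂ))
        ((Ideal.absNorm v.asIdeal).factorization (Ideal.absNorm v.asIdeal).minFac)
        * ((Ideal.absNorm v.asIdeal : ℕ) : ℂ) ^ (-s)
    + (if (Ideal.absNorm v.asIdeal).minFac ∣ N then (0 : ℂ) else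
        ((Ideal.absNorm v.asIdeal : ℕ) : ℂ) ^ (1 - 2 * s)))⁻¹

/-- `L(f/F, s)` is entire and `L(f/F, 1) ≠ 0`, for the number field `F ⊂ ℂ` and the newform `f`: there is
an entire function `G` which for `Re s > 3/2` is the Euler product of `f` over all finite places of `F`,
and `G(1) ≠ 0`. -/
def NonvanishingOver (F : IntermediateField ℚ ℂ) [NumberField F] {N : ℕ}
    (f : CuspForm (Gamma0 N : Subgroup (GL (Fin 2) ℝ)) 2) : Prop :=
  ∃ G : ℂ → ℂ, Differentiable ℂ G ∧
    (∀ s : ℂ, 3 / 2 < s.re → HasProd (fun v : HeightOneSpectrum (𝓞 F) => factor f s v) (G s)) ∧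
    G 1 ≠ 0

theorem pw_eq (t u : ℂ) : ∀ n : ℕ, pw t u n = W165.CE.pw t u n
  | 0 => rfl
  | 1 => rfl
  | n + 2 => by rw [pw, W165.CE.pw, pw_eq t u (n + 1), pw_eq t u n]

theorem factor_eq {F : Type} [Field F] [NumberField F] {N : ℕ}
    (f : CuspForm (Gamma0 N : Subgroup (GL (Fin 2) ℝ)) 2) (s : ℂ) (v : HeightOneSpectrum (𝓞 F)) :
    factor f s v = Pool.Agent.Q6.NW.fc N (Pool.Agent.Y18.BSD.co f) s v := by
  unfold factor Pool.Agent.Q6.NW.fc
  rw [pw_eq]
  rfl

theorem nonvanishing_of {F : IntermediateField ℚ ℂ} [NumberField F] {N : ℕ}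
    {f : CuspForm (Gamma0 N : Subgroup (GL (Fin 2) ℝ)) 2} (h : Pool.Agent.Q6.NW.RZF N F f) :
    NonvanishingOver F f := by
  obtain ⟨G, h1, h2, h3⟩ := h
  refine ⟨G, h1, fun s hs => ?_, h3⟩
  refine (congrArg (fun g => HasProd g (G s)) (funext fun v => ?_)).mp (h2 s hs)
  exact (factor_eq f s v).symm

theorem ez_eq {N : ℕ} (a : ℕ → ℂ) (z s : ℂ) (p : Nat.Primes) :
    Pool.Agent.Y18.NF.ez N a z s p = (1 - z * a p * ((p : ℕ) : ℂ) ^ (-s) +
      z ^ 2 * (if (p : ℕ) ∣ N then 0 else ((p : ℕ) : ℂ) ^ (1 - 2 * s)))⁻¹ := by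
  unfold Pool.Agent.Y18.NF.ez
  have hp0 : ((p : ℕ) : ℂ) ≠ 0 := by exact_mod_cast p.2.ne_zero
  have e : ((p : ℕ) : ℂ) ^ (1 - 2 * s) = (p : ℕ) * (((p : ℕ) : ℂ) ^ (-s)) ^ 2 := by
    rw [show (1 - 2 * s : ℂ) = 1 + ((-s) + (-s)) by ring, Complex.cpow_add _ _ hp0,
      Complex.cpow_add _ _ hp0, Complex.cpow_one]
    ring
  congr 2
  split_ifs with h
  · rw [zero_mul]
  · rw [e]

theorem twist_iff {N : ℕ} {f : CuspForm (Gamma0 N : Subgroup (GL (Fin 2) ℝ)) 2} {c : Fam} :
    TwistNonvanishing f c ↔ Pool.Agent.Q6.NW.TwNZ f c := by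
  have key : ∀ (G : ℂ → ℂ) (s : ℂ), HasProd (fun p : Nat.Primes =>
      (1 - value c p * coef f p * ((p : ℕ) : ℂ) ^ (-s) +
        value c p ^ 2 * (if (p : ℕ) ∣ N then 0 else ((p : ℕ) : ℂ) ^ (1 - 2 * s)))⁻¹) (G s) ↔
      HasProd (fun p : Nat.Primes => Pool.Agent.Y18.NF.ez N (Pool.Agent.Y18.BSD.co f)
        (Pool.Agent.Y18.LP.cvl c p) s p) (G s) := fun G s =>
    iff_of_eq (congrArg (fun g => HasProd g (G s)) (funext fun p => (ez_eq _ _ s p).symm))
  constructor
  · rintro ⟨G, h1, h2, h3⟩
    exact ⟨G, h1, fun s hs => (key G s).1 (h2 s hs), h3⟩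
  · rintro ⟨G, h1, h2, h3⟩
    exact ⟨G, h1, fun s hs => (key G s).2 (h2 s hs), h3⟩

theorem group_of {m : ℕ} {N : Fin m → ℕ}
    {f : (i : Fin m) → CuspForm (Gamma0 (N i) : Subgroup (GL (Fin 2) ℝ)) 2} {G : Subgroup Fam}
    {lam : Ideal (integralClosure ℤ ℂ)} {l n : ℕ} {H : Subgroup Fam}
    (hH : IsCharGroup f G lam l n H) : Pool.Agent.Q6.NW.HG N f G lam l n H :=
  ⟨hH.pow, hH.finite, fun c hc q hq => hH.admissible c hc q hq⟩

/-- **Theorem.** Let `f_1, …, f_m`, `m > 0`, be newforms of weight two, of levels `N_i` and with trivial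
character, `G` a finite group of Dirichlet characters of squarefree conductors prime to the `N_i` such that
`L(f_i ⊗ ψ, 1) ≠ 0` for all `ψ ∈ G` and all `i`.  Let `l` be a prime, `n` an integer and `lam` a prime ideal
of the ring of all algebraic integers which contains `l`.  Let `H` be an infinite group of Dirichlet
characters of order dividing `l ^ n` and of squarefree conductors composed of primes `q` which do not divide
the `N_i` and the conductors of the `ψ ∈ G`, with `a_q(f_i) - ψ(q) - ψ(q)⁻¹ ∉ lam` for all `i` and all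
`ψ ∈ G`.  Then `H` has an infinite subgroup `H'` such that `L(f_i/F, s)` is entire with
`L(f_i/F, 1) ≠ 0` for all `i` and all number fields `F ⊂ ℂ` contained in the field generated by the
Gaussian periods of all the characters `ψ χ`, `ψ ∈ G`, `χ ∈ H'`. -/
theorem result (m : ℕ) (hm : 0 < m) (N : Fin m → ℕ) (hN : ∀ i, N i ≠ 0)
    (f : (i : Fin m) → CuspForm (Gamma0 (N i) : Subgroup (GL (Fin 2) ℝ)) 2)
    (hf : ∀ i, IsNewform (N i) (f i)) (G : Subgroup Fam) (hG : IsBase N G)
    (h0 : ∀ ψ ∈ G, ∀ i, TwistNonvanishing (f i) ψ)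
    (l n : ℕ) (hl : l.Prime) (lam : Ideal (integralClosure ℤ ℂ)) (hlam : lam.IsPrime)
    (hll : (l : integralClosure ℤ ℂ) ∈ lam)
    (H : Subgroup Fam) (hH : IsCharGroup f G lam l n H) (hinf : (H : Set Fam).Infinite) :
    ∃ H' : Subgroup Fam, H' ≤ H ∧ (H' : Set Fam).Infinite ∧
      ∀ (F : IntermediateField ℚ ℂ) [NumberField F],
        F ≤ IntermediateField.adjoin ℚ {x : ℂ | ∃ ψ ∈ G, ∃ c ∈ H', x = period (ψ * c)} →
        ∀ i, NonvanishingOver F (f i) := by
  have : ∀ i, NeZero (N i) := fun i => ⟨hN i⟩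
  have : Nonempty (Fin m) := ⟨⟨0, hm⟩⟩
  obtain ⟨H', h1, h2, h3⟩ := Pool.Agent.Q6.NW.tower_over (ι := Fin m) (N := N) (f := f)
    (fun i => ⟨(hf i).one, (hf i).real, (hf i).mul, (hf i).pow, (hf i).good, (hf i).bad,
      (hf i).fricke⟩) ⟨hG.finite, hG.supp_finite, hG.good⟩
    (fun ψ hψ i => twist_iff.1 (h0 ψ hψ i)) hl hlam hll H (group_of hH) hinf
  exact ⟨H', h1, h2, fun F _ hF i => nonvanishing_of (h3 F hF i)⟩

end Pool.Agent.Results.MP_ae0bd0_nt.NewformTowers
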