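import Pool.Agent.Q115.RV.SysMain
import Pool.Agent.TH942.ES.NF

/-!
# Numbers of points, the rank and sets of exponents of positive measure, over number fields

Let `K` be a number field, `E : y² = x³ + a x + b` an elliptic curve with `a, b ∈ 𝓞_K`, and
`P(y) = ∏_{Nv ≤ y} #E(k_v)/Nv`, the product over the primes `v ∤ 6Δ`: the original product of Birch and
Swinnerton-Dyer. Assume that the `L`-series of `E/K` has an analytic continuation `F` of polynomial growth to a
half plane `Re s > 1 - η` (for automorphic `L`-series this is known); `m = ord_{s=1} F`. Nothing is supposed about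
the zeros of `F`. The following is proved.

* One exponent `l > 1`, one-sided: if `P(y^l) ≤ Q P(y)` for all large `y`, then `F` has no zeros with
  `Re s > 1` (the Riemann hypothesis for `E/K`), and `l^m ≤ Q`, that is `m ≤ log Q / log l`. For instance, if
  `P(y²) ≤ 3.9 P(y)` for all large `y` then `ord_{s=1} F ≤ 1`.
* `P(y) ≍ (log y)^m` if and only if for all `l` in some set of positive measure in `(1, ∞)` there is a `Q(l)` with
  `P(y^l) ≤ Q(l) P(y)` for all large `y` (one-sided, pointwise in `l`); then this holds for all `l`, on both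
  sides.
* For every real `ρ`: `P(y) ≍ (log y)^ρ` if and only if `ρ = m` and the condition above holds. With
  `ρ = rk E(K)`: the expected order of magnitude `P(y) ≍ (log y)^{rk E(K)}` is equivalent to the rank part of the
  conjecture of Birch and Swinnerton-Dyer for `E/K` together with the one-sided regularity of the numbers of points.

The proof is for Euler products over arbitrary systems of primes (`Pool.Agent.Q115.RV`), based on the mean value
theorems of `Pool.Agent.Q5.MS` (helper5) and `Pool.Agent.TH270.MS`.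
-/

set_option autoImplicit false

namespace Pool.Agent.Results.MP_ae0bd0_nt.PositiveMeasureExponents

open Filter Topology Set Complex NumberField IsDedekindDomain MeasureTheory

variable {K : Type} [Field K] [NumberField K]

/-- The prime `v` does not divide `6 (4 a³ + 27 b²)`. -/
def Good (a b : 𝓞 K) (v : HeightOneSpectrum (𝓞 K)) : Prop :=
  6 * (4 * a ^ 3 + 27 * b ^ 2) ∉ v.asIdeal

/-- `Nv` -/
noncomputable def norm (v : HeightOneSpectrum (𝓞 K)) : ℕ := Ideal.absNorm v.asIdeal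

/-- The number of affine points of `y² = x³ + a x + b` modulo `v`. -/
noncomputable def points (a b : 𝓞 K) (v : HeightOneSpectrum (𝓞 K)) : ℕ :=
  Nat.card {P : (𝓞 K ⧸ v.asIdeal) × (𝓞 K ⧸ v.asIdeal) //
    P.2 ^ 2 = P.1 ^ 3 + Ideal.Quotient.mk v.asIdeal a * P.1 + Ideal.Quotient.mk v.asIdeal b}

/-- `a_v = Nv + 1 - #E(k_v)` -/
noncomputable def trace (a b : 𝓞 K) (v : HeightOneSpectrum (𝓞 K)) : ℤ := (norm v : ℤ) - points a b v

/-- The Euler factor `(1 - a_v Nv^(-s) + Nv^(1-2s))⁻¹`. -/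
noncomputable def factor (a b : 𝓞 K) (v : HeightOneSpectrum (𝓞 K)) (s : ℂ) : ℂ :=
  (1 - (trace a b v : ℂ) * (norm v : ℂ) ^ (-s) + (norm v : ℂ) ^ (1 - 2 * s))⁻¹

/-- The good primes with `Nv ≤ y`. -/
def upTo (a b : 𝓞 K) (y : ℝ) : Set (HeightOneSpectrum (𝓞 K)) := {v | Good a b v ∧ (norm v : ℝ) ≤ y}

/-- `P(y) = ∏_{Nv ≤ y} #E(k_v)/Nv`, `#E(k_v) = points + 1`, the (finite) product over the good primes `v` with
`Nv ≤ y`. -/
noncomputable def product (a b : 𝓞 K) (y : ℝ) : ℝ :=
  ∏ᶠ v ∈ upTo a b y, ((points a b v : ℝ) + 1) / norm v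

/-- `F` is an analytic continuation, of polynomial growth, of the `L`-series `∏_v factor v` (`Re s > 3/2`) to
a half plane `Re s > 1 - η`. -/
def Continued (a b : 𝓞 K) (F : ℂ → ℂ) : Prop :=
  (∃ (η C : ℝ) (κ : ℕ), 0 < η ∧
    ∀ s : ℂ, 1 - η < s.re → DifferentiableAt ℂ F s ∧ ‖F s‖ ≤ C * (1 + ‖s‖) ^ κ) ∧
  ∀ s : ℂ, (3 : ℝ) / 2 < s.re →
    HasProd (fun v : {v : HeightOneSpectrum (𝓞 K) // Good a b v} => factor a b v.1 s) (F s)

/-- `F` has no zeros with `Re s > 1`. -/
def NoZeros (F : ℂ → ℂ) : Prop := ∀ s : ℂ, 1 < s.re → F s ≠ 0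

/-- `P(y) ≍ (log y)^ρ` -/
def OfOrder (a b : 𝓞 K) (ρ : ℝ) : Prop :=
  ∃ c C : ℝ, 0 < c ∧ ∀ᶠ y : ℝ in atTop,
    c * Real.log y ^ ρ ≤ product a b y ∧ product a b y ≤ C * Real.log y ^ ρ

/-- One-sided regularity on a set of positive measure: there is a set `Λ ⊆ (1, ∞)` of positive (outer)
Lebesgue measure such that for every `l ∈ Λ` there is a `Q` with `P(y^l) ≤ Q P(y)` for all large `y`. -/
def RegularOnPositive (a b : 𝓞 K) : Prop :=
  ∃ Λ : Set ℝ, Λ ⊆ Ioi 1 ∧ volume Λ ≠ 0 ∧ ∀ l ∈ Λ, ∃ Q : ℝ,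
    ∀ᶠ y : ℝ in atTop, product a b (y ^ l) ≤ Q * product a b y

open scoped Classical in
/-- The rank of the group of the `K`-rational points of `y² = x³ + a x + b`. -/
noncomputable def rank (a b : 𝓞 K) : ℕ :=
  Module.finrank ℤ
    (WeierstrassCurve.Affine.Point
      (WeierstrassCurve.toAffine
        ({ a₁ := 0, a₂ := 0, a₃ := 0, a₄ := (a : K), a₆ := (b : K) } : WeierstrassCurve K)))

/-! ### translation -/

/-- `α^n + β^n` for the roots `α`, `β` of `X² - t X + q`. -/
def powerSum (t q : ℤ) : ℕ → ℤ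
  | 0 => 2
  | 1 => t
  | n + 2 => t * powerSum t q (n + 1) - q * powerSum t q n

open Pool.Agent.TH942.ES (GoodV alV curve_sys curve_factor curve_cv zv xv cv cP efV rt trV rt_prod trV_abs Sys)
open Pool.Agent.H921R2.TatePole (nm two_le_nm)
open Pool.Agent.TH270.MS (Pl Mc DvR)
open Pool.Agent.TH270.RS (Lw)
open Pool.Agent.Q5.MS (Pv)

/-- the norms -/
noncomputable abbrev NN (a b : 𝓞 K) : {v : HeightOneSpectrum (𝓞 K) // GoodV a b v} → ℕ :=
  fun v => nm v.1

theorem factor_eq (a b : 𝓞 K) (v : {v : HeightOneSpectrum (𝓞 K) // GoodV a b v}) (s : ℂ) :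
    factor a b v.1 s = ∏ i, (1 - zv (NN a b) (alV a b) v i * xv (NN a b) v (s - 1))⁻¹ := by
  have h := curve_factor (a := a) (b := b) v (s - 1)
  rw [add_sub_cancel] at h
  refine Eq.trans ?_ h.symm
  unfold factor efV trace
  push_cast
  rfl

/-- the power sums of the local roots -/
theorem zv_sum (a b : 𝓞 K) (v : {v : HeightOneSpectrum (𝓞 K) // GoodV a b v}) (n : ℕ) :
    ∑ i, zv (NN a b) (alV a b) v i ^ n =
      (((powerSum (trace a b v.1) (norm v.1) n : ℝ) / (norm v.1 : ℝ) ^ n : ℝ) : ℂ) := by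
  have hp2 : (2 : ℝ) ≤ nm v.1 := by exact_mod_cast two_le_nm v.1
  have hq0 : (0 : ℝ) < nm v.1 := by linarith
  have hs : 0 < √(nm v.1 : ℝ) := Real.sqrt_pos.2 hq0
  have hs2 : √(nm v.1 : ℝ) ^ 2 = nm v.1 := Real.sq_sqrt hq0.le
  have hsc : ((√(nm v.1 : ℝ) : ℝ) : ℂ) ≠ 0 := by exact_mod_cast hs.ne'
  have hqc : (nm v.1 : ℂ) ≠ 0 := by exact_mod_cast hq0.ne'
  have hs2c : ((√(nm v.1 : ℝ) : ℝ) : ℂ) ^ 2 = nm v.1 := by
    exact_mod_cast congrArg (fun x : ℝ => (x : ℂ)) hs2
  set z₀ : ℂ := zv (NN a b) (alV a b) v 0 with hz0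
  set z₁ : ℂ := zv (NN a b) (alV a b) v 1 with hz1
  have e0 : z₀ = rt (trV a b v.1) 0 / ((√(nm v.1 : ℝ) : ℝ) : ℂ) := rfl
  have e1 : z₁ = rt (trV a b v.1) 1 / ((√(nm v.1 : ℝ) : ℝ) : ℂ) := rfl
  -- the sum and the product of the roots
  have hprod1 := rt_prod (trV_abs v.2) 1
  have hprod2 := rt_prod (trV_abs v.2) (-1)
  have hP : rt (trV a b v.1) 0 * rt (trV a b v.1) 1 = 1 := by
    linear_combination (1 / 2 : ℂ) * hprod1 + (1 / 2 : ℂ) * hprod2
  have hS : rt (trV a b v.1) 0 + rt (trV a b v.1) 1 = 2 * trV a b v.1 := by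
    linear_combination (-1 / 2 : ℂ) * hprod1 + (1 / 2 : ℂ) * hprod2
  have hsum : z₀ + z₁ = (trace a b v.1 : ℂ) / nm v.1 := by
    rw [e0, e1, ← add_div, hS]
    unfold trV trace
    have e3 : (norm v.1 : ℤ) = (nm v.1 : ℤ) := rfl
    have e4 : points a b v.1 = Pool.Agent.TH942.ES.ptsV a b v.1 := rfl
    rw [e3, e4, ← hs2c]
    push_cast
    rw [hs2c]
    field_simp
    rw [hs2c]
    ring
  have hmul : z₀ * z₁ = 1 / (nm v.1 : ℂ) := by
    rw [e0, e1, div_mul_div_comm, hP, ← hs2c]
    ring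
  have key : ∀ n : ℕ, z₀ ^ n + z₁ ^ n =
      (powerSum (trace a b v.1) (norm v.1) n : ℂ) / (nm v.1 : ℂ) ^ n := by
    intro n
    induction n using Nat.twoStepInduction with
    | zero =>
      simp only [pow_zero, powerSum]
      norm_num
    | one =>
      simp only [pow_one, powerSum]
      exact hsum
    | more n ih1 ih2 =>
      have h1 : z₀ ^ (n + 2) + z₁ ^ (n + 2) = (z₀ + z₁) * (z₀ ^ (n + 1) + z₁ ^ (n + 1)) -
          z₀ * z₁ * (z₀ ^ n + z₁ ^ n) := by ring
      rw [h1, ih1, ih2, hsum, hmul]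
      have e3 : (((norm v.1 : ℕ) : ℤ) : ℂ) = (nm v.1 : ℂ) := by
        rw [Int.cast_natCast]
        rfl
      simp only [powerSum]
      push_cast
      have e5 : ((norm v.1 : ℕ) : ℂ) = (nm v.1 : ℂ) := rfl
      rw [e5]
      field_simp
      ring
  have h2 := key n
  rw [Fin.sum_univ_two]
  refine h2.trans ?_
  push_cast
  rfl

theorem real_sums (a b : 𝓞 K) (v : {v : HeightOneSpectrum (𝓞 K) // GoodV a b v}) (k : ℕ) :
    (∑ i, zv (NN a b) (alV a b) v i ^ k).im = 0 := by
  rw [zv_sum, Complex.ofReal_im]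

theorem log_product (a b : 𝓞 K) (y : ℝ) :
    Real.log (product a b y) = Pv (NN a b) (alV a b) y := by
  classical
  have E := curve_sys a b
  have hfin : (upTo a b y).Finite := by
    have h1 := (E.fin_le y).image Subtype.val
    refine h1.subset fun v hv => ?_
    exact ⟨⟨v, hv.1⟩, hv.2, rfl⟩
  have h2 : product a b y = ∏ v ∈ hfin.toFinset, ((points a b v : ℝ) + 1) / norm v :=
    finprod_mem_eq_finite_toFinset_prod _ hfin
  rw [h2, Real.log_prod]
  · rw [Pool.Agent.Q5.MS.pv_eq E]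
    refine Finset.sum_bij' (i := fun v hv => ⟨v, ((Set.Finite.mem_toFinset _).1 hv).1⟩)
      (j := fun v _ => v.1) ?_ ?_ ?_ ?_ ?_
    · intro v hv
      rw [Set.Finite.mem_toFinset] at hv ⊢
      exact hv.2
    · intro v hv
      rw [Set.Finite.mem_toFinset] at hv ⊢
      exact ⟨v.2, hv⟩
    · intro v hv
      rfl
    · intro v hv
      rfl
    · intro v hv
      have h3 := curve_cv (a := a) (b := b) ⟨v, ((Set.Finite.mem_toFinset _).1 hv).1⟩
      exact h3.symm
  · intro v hv
    rw [Set.Finite.mem_toFinset] at hv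
    have h3 : (2 : ℝ) ≤ norm v := by exact_mod_cast two_le_nm v
    positivity

/-- the data of the curve -/
theorem mdata {a b : 𝓞 K} {F : ℂ → ℂ} (hF : Continued a b F) :
    ∃ (κ : ℕ) (η C : ℝ),
      Mc (NN a b) (alV a b) (fun s => F (1 + s)) (fun s => F (1 + s)) 0 κ η C := by
  obtain ⟨⟨η, C, κ, hη, hG⟩, hL⟩ := hF
  refine ⟨κ, η, |C| * 2 ^ κ, curve_sys a b, real_sums a b, hη,
    fun s hs => ?_, fun s hs => ?_, fun s _ _ => ?_, fun s hs => ?_⟩
  · have h1 := (hG (1 + s) (by rw [Complex.add_re, Complex.one_re]; linarith)).1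
    exact DifferentiableAt.comp s (f := fun s : ℂ => 1 + s) h1 (by fun_prop)
  · refine (hG (1 + s) (by rw [Complex.add_re, Complex.one_re]; linarith)).2.trans ?_
    have h1 : 1 + ‖1 + s‖ ≤ 2 * (1 + ‖s‖) := by
      have := norm_add_le (1 : ℂ) s
      rw [norm_one] at this
      linarith [norm_nonneg s]
    calc C * (1 + ‖1 + s‖) ^ κ ≤ |C| * (2 * (1 + ‖s‖)) ^ κ :=
          mul_le_mul (le_abs_self _) (pow_le_pow_left₀ (by positivity) h1 κ) (by positivity)
            (abs_nonneg _)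
      _ = _ := by rw [mul_pow]; ring
  · rw [pow_zero, one_mul]
  · have h1 := hL (1 + s) (by rw [Complex.add_re, Complex.one_re]; linarith)
    have h2 := (curve_sys a b).hasProd (s := s) hs
    have h3 : (fun v : {v : HeightOneSpectrum (𝓞 K) // Good a b v} => factor a b v.1 (1 + s)) =
        fun v => ∏ i, (1 - zv (NN a b) (alV a b) v i * xv (NN a b) v s)⁻¹ := by
      funext v
      have h4 := factor_eq a b v (1 + s)
      rwa [add_sub_cancel_left] at h4
    rw [h3] at h1
    exact h1.tprod_eq.symm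

theorem ldata {a b : 𝓞 K} {F : ℂ → ℂ} (hF : Continued a b F) :
    (∃ m : ℕ, analyticOrderAt F 1 = m) ∧
    (∀ m : ℕ, analyticOrderAt F 1 = m → Lw (NN a b) (alV a b) (fun s => F (1 + s)) m) ∧
    ∃ (C : ℝ) (κ : ℕ), ∀ s : ℂ, 0 < s.re →
      ‖F (1 + s)‖ ≤ C * (1 + ‖s‖) ^ κ * (1 + 1 / s.re) ^ κ := by
  obtain ⟨⟨η, C, κ, hη, hFa⟩, hL⟩ := hF
  have hd : ∀ s : ℂ, 1 < s.re → DifferentiableAt ℂ F s := fun s hs => (hFa s (by linarith)).1
  have h1 : AnalyticAt ℂ F 1 := by
    have hU : IsOpen {s : ℂ | 1 - η < s.re} := isOpen_lt continuous_const Complex.continuous_re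
    exact (DifferentiableOn.analyticOnNhd (fun z hz => (hFa z hz).1.differentiableWithinAt) hU) 1
      (show 1 - η < (1 : ℂ).re by rw [Complex.one_re]; linarith)
  have hg : ∀ s : ℂ, 1 < s.re → ‖F s‖ ≤ |C| * (1 + ‖s‖) ^ κ * (1 + 1 / (s.re - 1)) ^ κ := by
    intro s hs
    have h2 := (hFa s (by linarith)).2
    have h3 : 1 ≤ (1 + 1 / (s.re - 1)) ^ κ := by
      apply one_le_pow₀
      have : 0 < 1 / (s.re - 1) := by
        have : 0 < s.re - 1 := by linarith
        positivity
      linarith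
    have h4 : 0 ≤ |C| * (1 + ‖s‖) ^ κ := by positivity
    calc ‖F s‖ ≤ C * (1 + ‖s‖) ^ κ := h2
      _ ≤ |C| * (1 + ‖s‖) ^ κ := mul_le_mul_of_nonneg_right (le_abs_self _) (by positivity)
      _ ≤ _ := le_mul_of_one_le_right h4 h3
  have E := curve_sys a b
  have hprod : ∀ s : ℂ, 1 / 2 < s.re →
      F (1 + s) = Pool.Agent.TH942.ES.LE (NN a b) (alV a b) s := by
    intro s hs
    have h1 := hL (1 + s) (by rw [Complex.add_re, Complex.one_re]; linarith)
    have h3 : (fun v : {v : HeightOneSpectrum (𝓞 K) // Good a b v} => factor a b v.1 (1 + s)) =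
        fun v => ∏ i, (1 - zv (NN a b) (alV a b) v i * xv (NN a b) v s)⁻¹ := by
      funext v
      have h4 := factor_eq a b v (1 + s)
      rwa [add_sub_cancel_left] at h4
    rw [h3] at h1
    exact h1.tprod_eq.symm
  have hana : ∀ s : ℂ, 1 < s.re → AnalyticAt ℂ F s := by
    intro s hs
    have hU : IsOpen {s : ℂ | 1 < s.re} := isOpen_lt continuous_const Complex.continuous_re
    exact (DifferentiableOn.analyticOnNhd (fun z hz => (hd z hz).differentiableWithinAt) hU) s hs
  refine ⟨?_, fun m hm => ?_, ?_⟩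
  · have hfin : analyticOrderAt F 1 ≠ ⊤ := by
      intro htop
      rw [analyticOrderAt_eq_top] at htop
      -- `F` vanishes in a ball around `1`
      obtain ⟨ε, hε, hball⟩ := Metric.eventually_nhds_iff_ball.1 htop
      have hU : IsOpen {s : ℂ | 1 < s.re} := isOpen_lt continuous_const Complex.continuous_re
      have hUc : Convex ℝ {s : ℂ | 1 < s.re} := convex_halfSpace_re_gt _
      have a1 : AnalyticOnNhd ℂ F {s : ℂ | 1 < s.re} := fun s hs => hana s hs
      set z₀ : ℂ := 1 + ((ε / 2 : ℝ) : ℂ) with hz₀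
      have hz₀re : 1 < z₀.re := by
        rw [hz₀, Complex.add_re, Complex.one_re, Complex.ofReal_re]
        linarith
      have hz₀b : z₀ ∈ Metric.ball (1 : ℂ) ε := by
        rw [Metric.mem_ball, dist_eq_norm, hz₀, add_sub_cancel_left, Complex.norm_real,
          Real.norm_eq_abs, abs_of_pos (half_pos hε)]
        linarith
      have h2 := a1.eqOn_of_preconnected_of_eventuallyEq (analyticOnNhd_const (v := (0 : ℂ)))
        hUc.isPreconnected (show z₀ ∈ {s : ℂ | 1 < s.re} from hz₀re) (by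
          filter_upwards [Metric.isOpen_ball.mem_nhds hz₀b] with s hs
          exact hball s hs)
      have h3 : F 2 = 0 := h2 (show (1 : ℝ) < (2 : ℂ).re by norm_num)
      have h4 := hprod 1 (by norm_num)
      have h5 := (E.LE_diff (s := 1) (by norm_num)).2
      rw [show (1 : ℂ) + 1 = 2 by norm_num, h3] at h4
      exact h5 h4.symm
    obtain ⟨p, hp⟩ := ENat.ne_top_iff_exists.1 hfin
    exact ⟨p, hp.symm⟩
  · have hga : AnalyticAt ℂ (fun z : ℂ => F (1 + z)) 0 := by
      have h2 : AnalyticAt ℂ (fun z : ℂ => 1 + z) 0 := by fun_prop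
      exact AnalyticAt.comp (f := fun z : ℂ => 1 + z) (by simpa using h1) h2
    refine ⟨E, real_sums a b, fun s hs => ?_, hprod, hga, ?_⟩
    · exact DifferentiableAt.comp s (f := fun s : ℂ => 1 + s)
        (hd (1 + s) (by rw [Complex.add_re, Complex.one_re]; linarith)) (by fun_prop)
    · rw [h1.analyticOrderAt_eq_natCast] at hm
      rw [hga.analyticOrderAt_eq_natCast]
      obtain ⟨g, hg, hg1, he⟩ := hm
      have ht : Tendsto (fun z : ℂ => 1 + z) (𝓝 0) (𝓝 1) := by
        have : Continuous fun z : ℂ => 1 + z := by fun_prop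
        simpa using this.tendsto 0
      refine ⟨fun z => g (1 + z), ?_, by simpa using hg1, ?_⟩
      · have h2 : AnalyticAt ℂ (fun z : ℂ => 1 + z) 0 := by fun_prop
        exact AnalyticAt.comp (f := fun z : ℂ => 1 + z) (by simpa using hg) h2
      · filter_upwards [ht.eventually he] with s hs
        rw [hs, add_sub_cancel_left, sub_zero]
  · refine ⟨|C| * 2 ^ κ, κ, fun s hs => ?_⟩
    have h2 := hg (1 + s) (by rw [Complex.add_re, Complex.one_re]; linarith)
    have h3 : (1 + s).re - 1 = s.re := by rw [Complex.add_re, Complex.one_re]; ring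
    rw [h3] at h2
    have h4 : 1 + ‖1 + s‖ ≤ 2 * (1 + ‖s‖) := by
      have := norm_add_le (1 : ℂ) s
      rw [norm_one] at this
      linarith [norm_nonneg s]
    have h5 : 0 ≤ (1 + 1 / s.re) ^ κ := by positivity
    refine h2.trans ?_
    calc |C| * (1 + ‖1 + s‖) ^ κ * (1 + 1 / s.re) ^ κ ≤
          |C| * (2 * (1 + ‖s‖)) ^ κ * (1 + 1 / s.re) ^ κ := by
          refine mul_le_mul_of_nonneg_right ?_ h5
          exact mul_le_mul_of_nonneg_left (pow_le_pow_left₀ (by positivity) h4 κ) (abs_nonneg _)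
      _ = _ := by rw [mul_pow]; ring

theorem zeros_shift (F : ℂ → ℂ) :
    (∀ s : ℂ, 0 < s.re → F (1 + s) ≠ 0) ↔ ∀ s : ℂ, 1 < s.re → F s ≠ 0 := by
  refine ⟨fun h s hs => ?_, fun h s hs => h _ (by simpa using hs)⟩
  have := h (s - 1) (by simpa using hs)
  rwa [add_sub_cancel] at this

theorem product_pos (a b : 𝓞 K) (y : ℝ) : 0 < product a b y := by
  classical
  refine finprod_mem_induction (fun x : ℝ => 0 < x) one_pos (fun x y => mul_pos) ?_
  intro v _
  have h3 : (2 : ℝ) ≤ norm v := by exact_mod_cast two_le_nm v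
  positivity

/-- bounded ratio -/
theorem upper_iff (a b : 𝓞 K) (l : ℝ) :
    (∃ Q : ℝ, ∀ᶠ y : ℝ in atTop, product a b (y ^ l) ≤ Q * product a b y) ↔
      ∃ M : ℝ, ∀ᶠ y : ℝ in atTop,
        Pv (NN a b) (alV a b) (y ^ l) ≤ Pv (NN a b) (alV a b) y + M := by
  constructor
  · rintro ⟨Q, hQ⟩
    refine ⟨Real.log (max Q 1), ?_⟩
    filter_upwards [hQ] with y hy
    have h1 : product a b (y ^ l) ≤ max Q 1 * product a b y :=
      hy.trans (mul_le_mul_of_nonneg_right (le_max_left _ _) (product_pos a b y).le)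
    have h2 := Real.log_le_log (product_pos a b _) h1
    rw [Real.log_mul (lt_max_of_lt_right one_pos).ne' (product_pos a b y).ne', log_product,
      log_product] at h2
    linarith
  · rintro ⟨M, hM⟩
    refine ⟨Real.exp M, ?_⟩
    filter_upwards [hM] with y hy
    rw [← log_product, ← log_product] at hy
    rw [← Real.exp_log (product_pos a b (y ^ l)), ← Real.exp_log (product_pos a b y),
      ← Real.exp_add]
    exact Real.exp_le_exp.2 (by linarith)

theorem regular_iff (a b : 𝓞 K) : RegularOnPositive a b ↔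
    ∃ Λ : Set ℝ, Λ ⊆ Ioi 1 ∧ volume Λ ≠ 0 ∧ ∀ l ∈ Λ, ∃ M : ℝ, ∀ᶠ y : ℝ in atTop,
      Pv (NN a b) (alV a b) (y ^ l) ≤ Pv (NN a b) (alV a b) y + M := by
  unfold RegularOnPositive
  simp only [upper_iff]

theorem order_iff (a b : 𝓞 K) (ρ : ℝ) : OfOrder a b ρ ↔
    ∃ M : ℝ, ∀ᶠ y : ℝ in atTop,
      |Pv (NN a b) (alV a b) y - ρ * Real.log (Real.log y)| ≤ M := by
  constructor
  · rintro ⟨c, C, hc, h⟩
    have hC : 0 < C := by
      obtain ⟨y, h1, h3⟩ := (h.and (eventually_gt_atTop 1)).exists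
      have hlog := Real.rpow_pos_of_pos (Real.log_pos h3) ρ
      have h5 := (mul_pos hc hlog).trans_le (h1.1.trans h1.2)
      exact (pos_iff_pos_of_mul_pos h5).2 hlog
    refine ⟨|Real.log c| + |Real.log C|, ?_⟩
    filter_upwards [h, eventually_gt_atTop 1] with y h1 h3
    have hl := Real.log_pos h3
    have hlog := Real.rpow_pos_of_pos hl ρ
    have h4 := Real.log_le_log (mul_pos hc hlog) h1.1
    have h5 := Real.log_le_log (product_pos a b y) h1.2
    rw [Real.log_mul hc.ne' hlog.ne', Real.log_rpow hl, log_product] at h4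
    rw [Real.log_mul hC.ne' hlog.ne', Real.log_rpow hl, log_product] at h5
    rw [abs_le]
    have := neg_abs_le (Real.log c)
    have := le_abs_self (Real.log C)
    have := abs_nonneg (Real.log c)
    have := abs_nonneg (Real.log C)
    constructor <;> linarith
  · rintro ⟨M, h⟩
    refine ⟨Real.exp (-M), Real.exp M, Real.exp_pos _, ?_⟩
    filter_upwards [h, eventually_gt_atTop 1] with y h1 h3
    have hl := Real.log_pos h3
    rw [← log_product, abs_le] at h1
    rw [Real.rpow_def_of_pos hl, ← Real.exp_log (product_pos a b y), ← Real.exp_add,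
      ← Real.exp_add, mul_comm (Real.log (Real.log y))]
    exact ⟨Real.exp_le_exp.2 (by linarith [h1.1]), Real.exp_le_exp.2 (by linarith [h1.2])⟩

/-- **Numbers of points over number fields, sets of exponents of positive measure.** Let `m` be the order
of `F` at `1`.
(1) If `P(y^l) ≤ Q P(y)` for all large `y`, for one `l > 1` and one `Q`, then `F` has no zeros with
`Re s > 1` and `l^m ≤ Q`.
(2) `P(y) ≍ (log y)^m` if and only if for all `l` in some set of positive measure in `(1, ∞)` there is a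
`Q` with `P(y^l) ≤ Q P(y)` for all large `y`; if so, then for all `l > 0` there are `c > 0`, `C` with
`c P(y) ≤ P(y^l) ≤ C P(y)` for all large `y`.
(3) For every real `ρ`: `P(y) ≍ (log y)^ρ` if and only if `ρ = m` and the condition in (2) holds; in
particular for `ρ = rk E(K)`. -/
theorem result (a b : 𝓞 K) (_hΔ : 4 * a ^ 3 + 27 * b ^ 2 ≠ 0) (F : ℂ → ℂ) (hF : Continued a b F) :
    ∃ m : ℕ, analyticOrderAt F 1 = m ∧
      (∀ l Q : ℝ, 1 < l → (∀ᶠ y : ℝ in atTop, product a b (y ^ l) ≤ Q * product a b y) →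
        NoZeros F ∧ l ^ m ≤ Q) ∧
      (OfOrder a b m ↔ RegularOnPositive a b) ∧
      (RegularOnPositive a b → ∀ l : ℝ, 0 < l → ∃ c C : ℝ, 0 < c ∧ ∀ᶠ y : ℝ in atTop,
        c * product a b y ≤ product a b (y ^ l) ∧ product a b (y ^ l) ≤ C * product a b y) ∧
      (∀ ρ : ℝ, OfOrder a b ρ ↔ ρ = m ∧ RegularOnPositive a b) ∧
      (OfOrder a b (rank a b) ↔ rank a b = m ∧ RegularOnPositive a b) := by
  obtain ⟨κ, η, C, HM⟩ := mdata hF
  obtain ⟨⟨m, hm⟩, hLw, C', κ', hgrow⟩ := ldata hF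
  have HL := hLw m hm
  have t := Pool.Agent.Q115.RV.sys_tfae HM HL hgrow
  have t1 := t.out 0 2
  have t2 := t.out 1 2
  have hord : ∀ ρ : ℝ, OfOrder a b ρ ↔ ρ = m ∧ RegularOnPositive a b := by
    intro ρ
    rw [order_iff, regular_iff]
    exact Pool.Agent.Q115.RV.sys_order HM HL hgrow ρ
  refine ⟨m, hm, ?_, ?_, ?_, hord, ?_⟩
  · intro l Q hl h
    have hQ : 0 < Q := by
      obtain ⟨y, hy⟩ := h.exists
      have h2 := (product_pos a b (y ^ l)).trans_le hy
      exact (pos_iff_pos_of_mul_pos h2).2 (product_pos a b y)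
    have h1 : ∀ᶠ y : ℝ in atTop, Pv (NN a b) (alV a b) (y ^ l) ≤
        Pv (NN a b) (alV a b) y + Real.log Q := by
      filter_upwards [h] with y hy
      have h2 := Real.log_le_log (product_pos a b _) hy
      rw [Real.log_mul hQ.ne' (product_pos a b y).ne', log_product, log_product] at h2
      linarith
    obtain ⟨h2, h3⟩ := Pool.Agent.Q115.RV.sys_one HM HL hgrow hl h1
    refine ⟨(zeros_shift F).1 h2, ?_⟩
    rw [← Real.log_pow] at h3
    exact (Real.log_le_log_iff (pow_pos (by linarith) m) hQ).1 h3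
  · rw [order_iff, regular_iff]
    exact t1
  · rw [regular_iff]
    intro h l hl
    obtain ⟨M, hM⟩ := t2.2 h l hl
    refine ⟨Real.exp (-M), Real.exp M, Real.exp_pos _, ?_⟩
    filter_upwards [hM] with y hy
    rw [← log_product, ← log_product, abs_le] at hy
    rw [← Real.exp_log (product_pos a b (y ^ l)), ← Real.exp_log (product_pos a b y),
      ← Real.exp_add, ← Real.exp_add]
    exact ⟨Real.exp_le_exp.2 (by linarith [hy.1]), Real.exp_le_exp.2 (by linarith [hy.2])⟩
  · rw [hord]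
    norm_cast

end Pool.Agent.Results.MP_ae0bd0_nt.PositiveMeasureExponents
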